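import Mathlib

/-!
# Distance-regular graphs that are not core-complete

The Shrikhande graph is the Cayley graph of the abelian group `ℤ/4 × ℤ/4` with connection set
`± (1,0), ± (0,1), ± (1,1)`. Its Cartesian power with `m` factors is a Doob graph: it is
distance-regular with the parameters of the Hamming graph `H(2m, 4)`. Adding the coordinates is a
homomorphism from the `m`-th Cartesian power onto the Shrikhande graph, so for `m ≥ 2` the power
is not a core; and the Shrikhande graph has no clique with four vertices and no proper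
3-colouring, so no complete graph is homomorphically equivalent to the power.
-/

set_option autoImplicit false

namespace Pool.Agent.Results.MP_06b6d5_co.DoobGraphs

open SimpleGraph

/-- `X` is distance-regular of diameter `d` with intersection numbers `b i`, `c i`: it is
connected of diameter `d`, and for all vertices `u`, `v` at distance `i`, the vertex `v` has
exactly `c i` neighbours at distance `i - 1` from `u` and exactly `b i` neighbours at distance
`i + 1` from `u`. -/
def IsDistanceRegular {V : Type} (X : SimpleGraph V) (d : ℕ) (b c : ℕ → ℕ) : Prop :=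
  X.Connected ∧ X.diam = d ∧ ∀ u v : V,
    {w | X.Adj v w ∧ X.dist u w + 1 = X.dist u v}.ncard = c (X.dist u v) ∧
    {w | X.Adj v w ∧ X.dist u w = X.dist u v + 1}.ncard = b (X.dist u v)

/-- A graph is a core if each of its endomorphisms is an automorphism. -/
def IsCore {W : Type} (C : SimpleGraph W) : Prop :=
  ∀ f : C →g C, ∃ e : C ≃g C, ∀ w, e w = f w

/-- `C` is a core of `X`: it is a core, it is isomorphic to an induced subgraph of `X` and `X`
has a homomorphism to it. -/
def IsCoreOf {V W : Type} (C : SimpleGraph W) (X : SimpleGraph V) : Prop :=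
  IsCore C ∧ Nonempty (C ↪g X) ∧ Nonempty (X →g C)

/-! ### Every finite graph has a core -/

lemma bijective_endo {W : Type} [Finite W] (C : SimpleGraph W) (f : C →g C)
    (hf : Function.Injective f) : ∃ e : C ≃g C, ∀ w, e w = f w := by
  classical
  have : Fintype W := Fintype.ofFinite W
  have hbij : Function.Bijective f := Finite.injective_iff_bijective.1 hf
  let p : Equiv.Perm W := Equiv.ofBijective f hbij
  have hp : ∀ w, p w = f w := fun w => rfl
  obtain ⟨n, hn, hpn⟩ : ∃ n, 0 < n ∧ p ^ n = 1 := ⟨orderOf p, orderOf_pos p, pow_orderOf_eq_one p⟩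
  have hadj : ∀ k : ℕ, ∀ x y, C.Adj x y → C.Adj ((p ^ k) x) ((p ^ k) y) := by
    intro k
    induction k with
    | zero => intro x y h; simpa using h
    | succ k ih =>
      intro x y h
      rw [pow_succ', Equiv.Perm.mul_apply, Equiv.Perm.mul_apply, hp, hp]
      exact f.map_adj (ih x y h)
  refine ⟨⟨p, ?_⟩, fun w => rfl⟩
  intro x y
  constructor
  · intro h
    have h1 := hadj (n - 1) _ _ h
    have h2 : ∀ z, (p ^ (n - 1)) (p z) = z := by
      intro z
      rw [← Equiv.Perm.mul_apply, ← pow_succ, Nat.sub_add_cancel hn, hpn, Equiv.Perm.one_apply]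
    rwa [h2, h2] at h1
  · intro h
    exact f.map_adj h

lemma exists_core {V : Type} [Finite V] (X : SimpleGraph V) :
    ∃ (W : Type) (_ : Finite W) (C : SimpleGraph W), IsCoreOf C X := by
  classical
  have hex : ∃ n : ℕ, ∃ S : Set V, S.ncard = n ∧ Nonempty (X →g X.induce S) :=
    ⟨_, Set.univ, rfl, ⟨⟨fun v => ⟨v, trivial⟩, fun h => h⟩⟩⟩
  obtain ⟨S, hS, ⟨φ⟩⟩ := Nat.find_spec hex
  refine ⟨S, inferInstance, X.induce S, ?_, ⟨Embedding.induce S⟩, ⟨φ⟩⟩
  intro f
  apply bijective_endo
  by_contra hinj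
  have hns : ¬ Function.Surjective f := fun h => hinj (Finite.injective_iff_surjective.2 h)
  -- the range is a smaller retract
  let T : Set V := Subtype.val '' (Set.range f)
  have hTS : T ⊂ S := by
    rw [Set.ssubset_iff_subset_ne]
    refine ⟨?_, ?_⟩
    · rintro _ ⟨⟨x, hx⟩, _, rfl⟩
      exact hx
    · intro hEq
      apply hns
      intro y
      have hy : (y : V) ∈ T := by rw [hEq]; exact y.2
      obtain ⟨z, hz, hzy⟩ := hy
      obtain ⟨w, hw⟩ := hz
      exact ⟨w, by rw [hw]; exact Subtype.ext hzy⟩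
  have hlt : T.ncard < Nat.find hex := by
    rw [← hS]
    exact Set.ncard_lt_ncard hTS (Set.toFinite S)
  apply Nat.find_min hex hlt
  refine ⟨T, rfl, ⟨⟨fun v => ⟨(f (φ v)).1, ⟨f (φ v), ⟨φ v, rfl⟩, rfl⟩⟩, ?_⟩⟩⟩
  intro a b hab
  exact f.map_adj (φ.map_adj hab)

/-! ### The Shrikhande graph -/

/-- the group `ℤ/4 × ℤ/4` -/
abbrev A : Type := ZMod 4 × ZMod 4

/-- the connection set of the Shrikhande graph -/
def S : Finset A := {(1, 0), (3, 0), (0, 1), (0, 3), (1, 1), (3, 3)}

/-- The Shrikhande graph: the Cayley graph of `ℤ/4 × ℤ/4` with connection set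
`± (1,0), ± (0,1), ± (1,1)`. -/
def shrikhande : SimpleGraph A where
  Adj u v := v - u ∈ S
  symm := ⟨by
    have h : ∀ d ∈ S, -d ∈ S := by decide
    intro u v huv
    have := h _ huv
    rwa [neg_sub] at this⟩
  loopless := ⟨by
    intro u hu
    rw [sub_self] at hu
    revert hu
    decide⟩

lemma adj_iff (u v : A) : shrikhande.Adj u v ↔ v - u ∈ S := Iff.rfl

lemma adj_add (u v a : A) (h : shrikhande.Adj u v) : shrikhande.Adj (u + a) (v + a) := by
  rw [adj_iff] at h ⊢
  rwa [add_sub_add_right_eq_sub]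

/-- the distance in the Shrikhande graph from `0` -/
def δ (a : A) : ℕ := if a = 0 then 0 else if a ∈ S then 1 else 2

lemma dist_eq (u v : A) : shrikhande.dist u v = δ (v - u) ∧ shrikhande.Reachable u v := by
  unfold δ
  split_ifs with h0 h1
  · have : v = u := sub_eq_zero.1 h0
    subst this
    exact ⟨SimpleGraph.dist_self, SimpleGraph.Reachable.refl _⟩
  · exact ⟨SimpleGraph.dist_eq_one_iff_adj.2 h1, (show shrikhande.Adj u v from h1).reachable⟩
  · have h2 : ∀ a : A, a ≠ 0 → a ∉ S → ∃ s ∈ S, a - s ∈ S := by decide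
    obtain ⟨s, hs, hs'⟩ := h2 (v - u) h0 h1
    have e1 : shrikhande.Adj u (u + s) := by rw [adj_iff, add_sub_cancel_left]; exact hs
    have e2 : shrikhande.Adj (u + s) v := by
      rw [adj_iff]
      have : v - (u + s) = v - u - s := by abel
      rw [this]; exact hs'
    have hle : shrikhande.dist u v ≤ 2 :=
      SimpleGraph.dist_le (SimpleGraph.Walk.cons e1 (SimpleGraph.Walk.cons e2 SimpleGraph.Walk.nil))
    have hr : shrikhande.Reachable u v := e1.reachable.trans e2.reachable
    have hne0 : shrikhande.dist u v ≠ 0 := by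
      intro h
      have := (hr.dist_eq_zero_iff).1 h
      exact h0 (by rw [this, sub_self])
    have hne1 : shrikhande.dist u v ≠ 1 := by
      intro h
      exact h1 (SimpleGraph.dist_eq_one_iff_adj.1 h)
    exact ⟨by omega, hr⟩

/-! ### Distance-regularity with the parameters of `H(D, 4)`, and Cartesian products -/

/-- connected, diameter `D`, `c_i = i`, `b_i = 3 (D - i)` -/
structure HType {V : Type} (X : SimpleGraph V) (D : ℕ) : Prop where
  conn : X.Connected
  le : ∀ u v, X.dist u v ≤ D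
  ex : ∃ u v, X.dist u v = D
  cc : ∀ u v, {w | X.Adj v w ∧ X.dist u w + 1 = X.dist u v}.ncard = X.dist u v
  bb : ∀ u v, {w | X.Adj v w ∧ X.dist u w = X.dist u v + 1}.ncard = 3 * (D - X.dist u v)

lemma shrikhande_HType : HType shrikhande 2 where
  conn := by
    have : Nonempty A := ⟨0⟩
    exact ⟨fun u v => (dist_eq u v).2⟩
  le := by
    intro u v
    rw [(dist_eq u v).1]
    unfold δ
    split_ifs <;> omega
  ex := ⟨0, (2, 0), by rw [(dist_eq _ _).1]; decide⟩
  cc := by
    intro u v
    have key : ∀ a : A, (Finset.univ.filter fun s : A => s ∈ S ∧ δ (a + s) + 1 = δ a).card = δ a := by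
      decide
    have hset : {w | shrikhande.Adj v w ∧ shrikhande.dist u w + 1 = shrikhande.dist u v} =
        (fun s => v + s) '' ((Finset.univ.filter fun s : A =>
          s ∈ S ∧ δ (v - u + s) + 1 = δ (v - u) : Finset A) : Set A) := by
      ext w
      rw [(dist_eq u v).1]
      simp only [Set.mem_ofPred_eq, Finset.coe_filter, Finset.mem_univ, true_and, Set.mem_image]
      rw [adj_iff, (dist_eq u w).1]
      constructor
      · rintro ⟨h1, h2⟩
        refine ⟨w - v, ⟨h1, ?_⟩, by abel⟩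
        have : v - u + (w - v) = w - u := by abel
        rw [this]; exact h2
      · rintro ⟨s, ⟨h1, h2⟩, rfl⟩
        refine ⟨by rw [add_sub_cancel_left]; exact h1, ?_⟩
        have : v + s - u = v - u + s := by abel
        rw [this]; exact h2
    rw [hset, Set.ncard_image_of_injective _ (add_right_injective v), Set.ncard_coe_finset, key,
      (dist_eq u v).1]
  bb := by
    intro u v
    have key : ∀ a : A, (Finset.univ.filter fun s : A => s ∈ S ∧ δ (a + s) = δ a + 1).card =
        3 * (2 - δ a) := by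
      decide
    have hset : {w | shrikhande.Adj v w ∧ shrikhande.dist u w = shrikhande.dist u v + 1} =
        (fun s => v + s) '' ((Finset.univ.filter fun s : A =>
          s ∈ S ∧ δ (v - u + s) = δ (v - u) + 1 : Finset A) : Set A) := by
      ext w
      rw [(dist_eq u v).1]
      simp only [Set.mem_ofPred_eq, Finset.coe_filter, Finset.mem_univ, true_and, Set.mem_image]
      rw [adj_iff, (dist_eq u w).1]
      constructor
      · rintro ⟨h1, h2⟩
        refine ⟨w - v, ⟨h1, ?_⟩, by abel⟩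
        have : v - u + (w - v) = w - u := by abel
        rw [this]; exact h2
      · rintro ⟨s, ⟨h1, h2⟩, rfl⟩
        refine ⟨by rw [add_sub_cancel_left]; exact h1, ?_⟩
        have : v + s - u = v - u + s := by abel
        rw [this]; exact h2
    rw [hset, Set.ncard_image_of_injective _ (add_right_injective v), Set.ncard_coe_finset, key,
      (dist_eq u v).1]

lemma dist_box {V W : Type} {X : SimpleGraph V} {Y : SimpleGraph W} (hX : X.Connected)
    (hY : Y.Connected) (x y : V × W) :
    (X □ Y).dist x y = X.dist x.1 y.1 + Y.dist x.2 y.2 := by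
  have h := SimpleGraph.edist_boxProd (G := X) (H := Y) x y
  have h1 : ((X □ Y).dist x y : ℕ∞) = (X □ Y).edist x y :=
    ((hX.boxProd hY) x y).coe_dist_eq_edist
  have h2 : (X.dist x.1 y.1 : ℕ∞) = X.edist x.1 y.1 := (hX x.1 y.1).coe_dist_eq_edist
  have h3 : (Y.dist x.2 y.2 : ℕ∞) = Y.edist x.2 y.2 := (hY x.2 y.2).coe_dist_eq_edist
  rw [← h1, ← h2, ← h3] at h
  exact_mod_cast h

lemma split_ncard {V W : Type} [Finite V] [Finite W] (X : SimpleGraph V) (Y : SimpleGraph W)
    (v : V × W) (P : V × W → Prop) :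
    {w | (X □ Y).Adj v w ∧ P w}.ncard =
      {a | X.Adj v.1 a ∧ P (a, v.2)}.ncard + {b | Y.Adj v.2 b ∧ P (v.1, b)}.ncard := by
  have h1 : {w | (X □ Y).Adj v w ∧ P w} =
      (fun a => (a, v.2)) '' {a | X.Adj v.1 a ∧ P (a, v.2)} ∪
        (fun b => (v.1, b)) '' {b | Y.Adj v.2 b ∧ P (v.1, b)} := by
    ext ⟨a, b⟩
    simp only [Set.mem_ofPred_eq, SimpleGraph.boxProd_adj, Set.mem_union, Set.mem_image,
      Prod.mk.injEq]
    constructor
    · rintro ⟨h | h, hP⟩
      · obtain ⟨h, rfl⟩ := h
        exact Or.inl ⟨a, ⟨h, hP⟩, rfl, rfl⟩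
      · obtain ⟨h, rfl⟩ := h
        exact Or.inr ⟨b, ⟨h, hP⟩, rfl, rfl⟩
    · rintro (⟨a', ⟨h, hP⟩, rfl, rfl⟩ | ⟨b', ⟨h, hP⟩, rfl, rfl⟩)
      · exact ⟨Or.inl ⟨h, rfl⟩, hP⟩
      · exact ⟨Or.inr ⟨h, rfl⟩, hP⟩
  rw [h1, Set.ncard_union_eq, Set.ncard_image_of_injective, Set.ncard_image_of_injective]
  · intro a b h; exact (Prod.mk.inj h).2
  · intro a b h; exact (Prod.mk.inj h).1
  · rw [Set.disjoint_left]
    rintro _ ⟨a, ⟨ha, _⟩, rfl⟩ ⟨b, ⟨hb, _⟩, h⟩
    have : v.1 = a := (Prod.mk.inj h).1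
    rw [this] at ha
    exact X.loopless.irrefl _ ha

lemma HType.box {V W : Type} [Finite V] [Finite W] {X : SimpleGraph V} {Y : SimpleGraph W}
    {D E : ℕ} (hX : HType X D) (hY : HType Y E) : HType (X □ Y) (D + E) where
  conn := hX.conn.boxProd hY.conn
  le := by
    intro u v
    rw [dist_box hX.conn hY.conn]
    exact Nat.add_le_add (hX.le _ _) (hY.le _ _)
  ex := by
    obtain ⟨u, v, h⟩ := hX.ex
    obtain ⟨u', v', h'⟩ := hY.ex
    exact ⟨(u, u'), (v, v'), by rw [dist_box hX.conn hY.conn, h, h']⟩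
  cc := by
    intro u v
    rw [split_ncard]
    simp only [dist_box hX.conn hY.conn]
    rw [← hX.cc u.1 v.1, ← hY.cc u.2 v.2]
    congr 2
    · ext a
      simp only [Set.mem_ofPred_eq]
      rw [hX.cc u.1 v.1, hY.cc u.2 v.2]
      constructor
      · rintro ⟨h1, h2⟩; exact ⟨h1, by omega⟩
      · rintro ⟨h1, h2⟩; exact ⟨h1, by omega⟩
    · ext a
      simp only [Set.mem_ofPred_eq]
      rw [hX.cc u.1 v.1, hY.cc u.2 v.2]
      constructor
      · rintro ⟨h1, h2⟩; exact ⟨h1, by omega⟩
      · rintro ⟨h1, h2⟩; exact ⟨h1, by omega⟩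
  bb := by
    intro u v
    rw [split_ncard]
    simp only [dist_box hX.conn hY.conn]
    have h1 := hX.le u.1 v.1
    have h2 := hY.le u.2 v.2
    have h3 : 3 * (D + E - (X.dist u.1 v.1 + Y.dist u.2 v.2)) =
        3 * (D - X.dist u.1 v.1) + 3 * (E - Y.dist u.2 v.2) := by omega
    rw [h3, ← hX.bb u.1 v.1, ← hY.bb u.2 v.2]
    congr 2
    · ext a
      simp only [Set.mem_ofPred_eq]
      constructor
      · rintro ⟨h1, h2⟩; exact ⟨h1, by omega⟩
      · rintro ⟨h1, h2⟩; exact ⟨h1, by omega⟩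
    · ext a
      simp only [Set.mem_ofPred_eq]
      constructor
      · rintro ⟨h1, h2⟩; exact ⟨h1, by omega⟩
      · rintro ⟨h1, h2⟩; exact ⟨h1, by omega⟩

lemma HType.isDistanceRegular {V : Type} [Finite V] {X : SimpleGraph V} {D : ℕ}
    (hX : HType X D) : IsDistanceRegular X D (fun i => 3 * (D - i)) (fun i => i) := by
  refine ⟨hX.conn, ?_, fun u v => ⟨hX.cc u v, hX.bb u v⟩⟩
  have : Nonempty V := hX.conn.nonempty
  obtain ⟨u, v, h⟩ := X.exists_dist_eq_diam
  obtain ⟨u', v', h'⟩ := hX.ex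
  apply le_antisymm
  · rw [← h]; exact hX.le u v
  · rw [← h']
    exact SimpleGraph.dist_le_diam ((SimpleGraph.connected_iff_ediam_ne_top).1 hX.conn)

/-! ### The Doob graphs -/

/-- the vertex set of the Cartesian power with `m + 1` factors -/
def DoobV : ℕ → Type
  | 0 => A
  | m + 1 => DoobV m × A

/-- The Cartesian power of the Shrikhande graph with `m + 1` factors (a Doob graph). -/
def doob : (m : ℕ) → SimpleGraph (DoobV m)
  | 0 => shrikhande
  | m + 1 => (doob m) □ shrikhande

instance finite_DoobV : ∀ m, Finite (DoobV m)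
  | 0 => inferInstanceAs (Finite A)
  | m + 1 => by
    have := finite_DoobV m
    exact inferInstanceAs (Finite (DoobV m × A))

lemma card_DoobV : ∀ m, Nat.card (DoobV m) = 16 ^ (m + 1)
  | 0 => by
    show Nat.card A = 16 ^ 1
    simp [A, Nat.card_eq_fintype_card, ZMod.card]
  | m + 1 => by
    show Nat.card (DoobV m × A) = 16 ^ (m + 1 + 1)
    rw [Nat.card_prod, card_DoobV m]
    simp [A, Nat.card_eq_fintype_card, ZMod.card]
    ring

lemma doob_HType : ∀ m, HType (doob m) (2 * (m + 1))
  | 0 => shrikhande_HType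
  | m + 1 => by
    have h := (doob_HType m).box shrikhande_HType
    exact h

/-- the sum of the coordinates -/
def σ : (m : ℕ) → DoobV m → A
  | 0 => fun x => x
  | m + 1 => fun x => σ m x.1 + x.2

lemma σ_adj : ∀ m (x y : DoobV m), (doob m).Adj x y → shrikhande.Adj (σ m x) (σ m y)
  | 0, _, _, h => h
  | m + 1, x, y, h => by
    have h' := (SimpleGraph.boxProd_adj (G := doob m) (H := shrikhande) (x := x) (y := y)).1 h
    show shrikhande.Adj (σ m x.1 + x.2) (σ m y.1 + y.2)
    rcases h' with ⟨h1, h2⟩ | ⟨h1, h2⟩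
    · rw [← h2]
      exact adj_add _ _ _ (σ_adj m _ _ h1)
    · rw [← h2, add_comm _ x.2, add_comm _ y.2]
      exact adj_add _ _ _ h1

/-- the homomorphism onto the Shrikhande graph given by the sum of the coordinates -/
def σhom (m : ℕ) : doob m →g shrikhande := ⟨σ m, fun {x y} h => σ_adj m x y h⟩

/-- a base vertex -/
def base : (m : ℕ) → DoobV m
  | 0 => (0 : A)
  | m + 1 => (base m, 0)

/-- the embedding of the Shrikhande graph as last factor -/
def ιhom (m : ℕ) : shrikhande →g doob (m + 1) :=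
  ⟨fun a => (base m, a), fun {a b} h => by
    show ((doob m) □ shrikhande).Adj _ _
    rw [SimpleGraph.boxProd_adj]
    exact Or.inr ⟨h, rfl⟩⟩

lemma exists_ne_base (m : ℕ) : ∃ x : DoobV m, x ≠ base m := by
  have h : 1 < Nat.card (DoobV m) := by
    rw [card_DoobV]
    exact Nat.one_lt_pow (by omega) (by norm_num)
  have : Nontrivial (DoobV m) := Finite.one_lt_card_iff_nontrivial.1 h
  exact exists_ne (base m)

lemma doob_not_core (m : ℕ) : ¬ IsCore (doob (m + 1)) := by
  intro h
  obtain ⟨e, he⟩ := h ((ιhom m).comp (σhom (m + 1)))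
  obtain ⟨x, hx⟩ := exists_ne_base m
  obtain ⟨y, hy⟩ := e.surjective (x, 0)
  rw [he] at hy
  have : base m = x := congrArg Prod.fst hy
  exact hx this.symm

/-! ### Clique number and chromatic number of the Shrikhande graph -/

lemma no_K4 (a b c d : A) (h1 : shrikhande.Adj a b) (h2 : shrikhande.Adj a c)
    (h3 : shrikhande.Adj a d) (h4 : shrikhande.Adj b c) (h5 : shrikhande.Adj b d)
    (h6 : shrikhande.Adj c d) : False := by
  have key : ∀ x ∈ S, ∀ y ∈ S, ∀ z ∈ S, ¬ (y - x ∈ S ∧ z - x ∈ S ∧ z - y ∈ S) := by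
    decide
  refine key (b - a) h1 (c - a) h2 (d - a) h3 ⟨?_, ?_, ?_⟩
  · rw [sub_sub_sub_cancel_right]; exact h4
  · rw [sub_sub_sub_cancel_right]; exact h5
  · rw [sub_sub_sub_cancel_right]; exact h6

lemma no_3col (g : A → Fin 3) (hg : ∀ a b, shrikhande.Adj a b → g a ≠ g b) : False := by
  have key : ∀ p q r s : Fin 3, p ≠ q → p ≠ r → q ≠ r → p ≠ s → s ≠ r → q = s := by decide
  have e : ∀ a b : A, b - a ∈ S → g a ≠ g b := fun a b h => hg a b h
  -- `g (x+1, y) = g (x, y+1)`
  have q0 := key (g (0, 0)) (g (1, 0)) (g (1, 1)) (g (0, 1)) (e _ _ (by decide))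
    (e _ _ (by decide)) (e _ _ (by decide)) (e _ _ (by decide)) (e _ _ (by decide))
  have q1 := key (g (1, 0)) (g (2, 0)) (g (2, 1)) (g (1, 1)) (e _ _ (by decide))
    (e _ _ (by decide)) (e _ _ (by decide)) (e _ _ (by decide)) (e _ _ (by decide))
  have q2 := key (g (2, 0)) (g (3, 0)) (g (3, 1)) (g (2, 1)) (e _ _ (by decide))
    (e _ _ (by decide)) (e _ _ (by decide)) (e _ _ (by decide)) (e _ _ (by decide))
  have q3 := key (g (3, 0)) (g (0, 0)) (g (0, 1)) (g (3, 1)) (e _ _ (by decide))
    (e _ _ (by decide)) (e _ _ (by decide)) (e _ _ (by decide)) (e _ _ (by decide))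
  have d01 : g (0, 0) ≠ g (1, 0) := e _ _ (by decide)
  have d02 : g (0, 0) ≠ g (2, 0) := by rw [q1]; exact e _ _ (by decide)
  have d03 : g (0, 0) ≠ g (3, 0) := e _ _ (by decide)
  have d12 : g (1, 0) ≠ g (2, 0) := e _ _ (by decide)
  have d13 : g (1, 0) ≠ g (3, 0) := by rw [q0]; exact (e _ _ (by decide)).symm
  have d23 : g (2, 0) ≠ g (3, 0) := e _ _ (by decide)
  have fin : ∀ p q r s : Fin 3, ¬ (p ≠ q ∧ p ≠ r ∧ p ≠ s ∧ q ≠ r ∧ q ≠ s ∧ r ≠ s) := by decide
  exact fin _ _ _ _ ⟨d01, d02, d03, d12, d13, d23⟩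

lemma not_complete {W : Type} [Finite W] (m : ℕ) (C : SimpleGraph W)
    (hC : Nonempty (C ↪g doob (m + 1))) (hX : Nonempty (doob (m + 1) →g C)) : C ≠ ⊤ := by
  classical
  rintro rfl
  obtain ⟨f⟩ := hC
  obtain ⟨g⟩ := hX
  have : Fintype W := Fintype.ofFinite W
  by_cases hcard : Fintype.card W ≤ 3
  · have hemb : Nonempty (W ↪ Fin 3) :=
      Function.Embedding.nonempty_of_card_le (by rw [Fintype.card_fin]; exact hcard)
    obtain ⟨i⟩ := hemb
    refine no_3col (fun a => i (g (ιhom m a))) ?_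
    intro a b hab h
    have h1 := g.map_adj ((ιhom m).map_adj hab)
    rw [SimpleGraph.top_adj] at h1
    exact h1 (i.injective h)
  · have hemb : Nonempty (Fin 4 ↪ W) :=
      Function.Embedding.nonempty_of_card_le (by rw [Fintype.card_fin]; omega)
    obtain ⟨i⟩ := hemb
    have hadj : ∀ x y : Fin 4, x ≠ y →
        shrikhande.Adj (σhom (m + 1) (f (i x))) (σhom (m + 1) (f (i y))) := by
      intro x y hxy
      apply (σhom (m + 1)).map_adj
      rw [f.map_adj_iff, SimpleGraph.top_adj]
      exact fun h => hxy (i.injective h)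
    exact no_K4 _ _ _ _ (hadj 0 1 (by decide)) (hadj 0 2 (by decide)) (hadj 0 3 (by decide))
      (hadj 1 2 (by decide)) (hadj 1 3 (by decide)) (hadj 2 3 (by decide))

/-- For every `m ≥ 2` there is a distance-regular graph `X` with `16 ^ m` vertices, diameter `2m`
and intersection numbers `b_i = 3 (2m - i)`, `c_i = i` (a Doob graph) which is not core-complete:
`X` has a core, and no core `C` of `X` is isomorphic to `X` or a complete graph. -/
theorem result : ∀ m : ℕ, 2 ≤ m → ∃ (V : Type) (_ : Finite V) (X : SimpleGraph V),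
    Nat.card V = 16 ^ m ∧
    IsDistanceRegular X (2 * m) (fun i => 3 * (2 * m - i)) (fun i => i) ∧
    (∃ (W : Type) (_ : Finite W) (C : SimpleGraph W), IsCoreOf C X) ∧
    ∀ (W : Type) (_ : Finite W) (C : SimpleGraph W), IsCoreOf C X →
      ¬ Nonempty (X ≃g C) ∧ C ≠ ⊤ := by
  intro m hm
  obtain ⟨k, rfl⟩ : ∃ k, m = k + 1 + 1 := ⟨m - 2, by omega⟩
  refine ⟨DoobV (k + 1), inferInstance, doob (k + 1), card_DoobV (k + 1),
    (doob_HType (k + 1)).isDistanceRegular, exists_core _, ?_⟩
  intro W hW C hC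
  refine ⟨?_, not_complete k C hC.2.1 hC.2.2⟩
  rintro ⟨e⟩
  apply doob_not_core k
  intro f
  obtain ⟨a, ha⟩ := hC.1 ((e.toHom.comp f).comp e.symm.toHom)
  refine ⟨(e.trans a).trans e.symm, ?_⟩
  intro w
  have h1 := ha (e w)
  show e.symm (a (e w)) = f w
  rw [h1]
  show e.symm (e (f (e.symm (e w)))) = f w
  rw [e.symm_apply_apply, e.symm_apply_apply]

end Pool.Agent.Results.MP_06b6d5_co.DoobGraphs
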